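import Pool.Agent.TMX.Stmts4

set_option autoImplicit false

/-!
# Squad TMX (MP_b61ad0_an), row VPl: the plain part of a chain
-/

namespace Pool.Agent.TMX.H43

open Finset Pool.Agent.TMX
open Pool.Agent.Helper51_Max (I IsMax)

theorem g_le_M {N : ℕ} {g M : ℕ → ℝ} (hM : IsMax N g M) {v : ℕ} (hv : v ≤ N) : g v ≤ M v := by
  have h := hM.le v hv 0
  have h2 : I N v 0 = {v} := by
    unfold Pool.Agent.Helper51_Max.I
    have h3 : min (v + 0) N = v := by omega
    rw [h3, Nat.sub_zero, Icc_self]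
  rw [h2, sum_singleton, card_singleton] at h
  simpa using h

theorem ball_bound {N : ℕ} {g M : ℕ → ℝ} (hR : Reach) (hM : IsMax N g M) {v r : ℕ} {u Q : ℝ}
    (hv : v ≤ N) (hu : 0 ≤ u) (hvQ : M v ≤ Q) {s : Finset ℕ} (hs : s ⊆ I N v r)
    (hball : ∀ i ∈ I N v r, u ≤ g i) (huv : u ≤ g v) :
    ∑ i ∈ s, (g i - u) ≤ 2 * ((N : ℝ) + 1) * (Q - u) + u := by
  have hnn : ∀ i ∈ I N v r, 0 ≤ g i - u := fun i hi => by
    have := hball i hi
    linarith
  have h1 := sum_le_sum_of_subset_of_nonneg hs (fun i hi _ => hnn i hi)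
  have h2 := (hR N g M hM).1 v r u hv (sum_nonneg hnn)
  have h3 := g_le_M hM hv
  have h4 : 0 ≤ M v - u := by linarith
  have h5 : (0 : ℝ) ≤ (N : ℝ) + 1 := by positivity
  have h6 : ((N : ℝ) + 1) * (M v - u) ≤ ((N : ℝ) + 1) * (Q - u) :=
    mul_le_mul_of_nonneg_left (by linarith) h5
  have h7 : 0 ≤ ((N : ℝ) + 1) * (Q - u) := mul_nonneg h5 (by linarith)
  linarith

theorem vPl : VPl := by
  intro hR hS N g M hM p p' v Q hpv hvp hpN hvQ
  have hv : v ≤ N := hvp.trans hpN
  have hgM := g_le_M hM hv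
  refine ⟨?_, ?_, ?_, ?_⟩
  · intro u hu
    have := hu v hpv hvp
    linarith
  · intro u q hu hq hqN hlow
    refine ball_bound hR hM (r := q - v) hv hu hvQ ?_ ?_ (hlow v (hvp.trans hq))
    · intro i hi
      rw [mem_Icc] at hi
      unfold Pool.Agent.Helper51_Max.I
      rw [mem_Icc]
      omega
    · intro i hi
      unfold Pool.Agent.Helper51_Max.I at hi
      rw [mem_Icc] at hi
      exact hlow i (by omega)
  · intro u q hu hq hlow
    refine ball_bound hR hM (r := v - q) hv hu hvQ ?_ ?_ (hlow v (hq.trans hpv) hv)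
    · intro i hi
      rw [mem_Icc] at hi
      unfold Pool.Agent.Helper51_Max.I
      rw [mem_Icc]
      omega
    · intro i hi
      unfold Pool.Agent.Helper51_Max.I at hi
      rw [mem_Icc] at hi
      exact hlow i (by omega) (by omega)
  · have h1 := (hS N g M hM).1 v hv
    have h2 := hM.M_nonneg hv
    have h5 : (0 : ℝ) ≤ (N : ℝ) + 1 := by positivity
    have h6 : ((N : ℝ) + 1) * M v ≤ ((N : ℝ) + 1) * Q := mul_le_mul_of_nonneg_left hvQ h5
    have h7 : 0 ≤ ((N : ℝ) + 1) * M v := mul_nonneg h5 h2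
    linarith

end Pool.Agent.TMX.H43
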